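import Pool.Agent.H73.CTG.Stmts

/-!
# Board `ctg`, row PSH: `log ‖F‖²` is subharmonic
-/

set_option autoImplicit false

open Set Filter Topology

namespace Pool.CTG

private lemma psh_re {n : ℕ} (x y : E n) : (inner ℂ x y : ℂ).re = inner ℝ x y := by
  simp only [PiLp.inner_apply, Complex.re_sum]
  rfl

private lemma psh_im {n : ℕ} (x y : E n) : (inner ℂ x y : ℂ).im = -inner ℝ x (Complex.I • y) := by
  rw [← psh_re, inner_smul_right]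
  simp

private lemma psh_cs {n : ℕ} (x y : E n) :
    (inner ℝ x y : ℝ) ^ 2 + (inner ℝ x (Complex.I • y) : ℝ) ^ 2 ≤ ‖x‖ ^ 2 * ‖y‖ ^ 2 := by
  have h := norm_inner_le_norm (𝕜 := ℂ) x y
  have h1 : ‖(inner ℂ x y : ℂ)‖ ^ 2 = (inner ℝ x y : ℝ) ^ 2 + (inner ℝ x (Complex.I • y) : ℝ) ^ 2 := by
    rw [← Complex.normSq_eq_norm_sq, Complex.normSq_apply, psh_re, psh_im]
    ring
  rw [← h1, ← mul_pow]
  exact pow_le_pow_left₀ (norm_nonneg _) h 2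

private lemma psh_first {n : ℕ} (F : ℂ → E n) (y c : ℂ) (h : DifferentiableAt ℂ F y) (h0 : F y ≠ 0) :
    fderiv ℝ (fun x => Real.log (‖F x‖ ^ 2)) y c = (‖F y‖ ^ 2)⁻¹ * (2 * inner ℝ (F y) (c • deriv F y)) := by
  have hR : HasFDerivAt F ((fderiv ℂ F y).restrictScalars ℝ) y := h.hasFDerivAt.restrictScalars ℝ
  have hn := hR.norm_sq
  have h1 : ‖F y‖ ^ 2 ≠ 0 := pow_ne_zero 2 (norm_ne_zero_iff.2 h0)
  have hl := hn.log h1
  rw [hl.fderiv]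
  simp [fderiv_eq_smul_deriv]

private lemma psh_second {n : ℕ} (F : ℂ → E n) (y c : ℂ) (h : DifferentiableAt ℂ F y)
    (h' : DifferentiableAt ℂ (deriv F) y) (h0 : F y ≠ 0) :
    fderiv ℝ (fun x => (‖F x‖ ^ 2)⁻¹ * (2 * inner ℝ (F x) (c • deriv F x))) y c =
      (‖F y‖ ^ 2)⁻¹ * (2 * (inner ℝ (F y) ((c * c) • deriv (deriv F) y) + ‖c‖ ^ 2 * ‖deriv F y‖ ^ 2)) -
        ((‖F y‖ ^ 2)⁻¹ * (2 * inner ℝ (F y) (c • deriv F y))) ^ 2 := by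
  have hR : HasFDerivAt F ((fderiv ℂ F y).restrictScalars ℝ) y := h.hasFDerivAt.restrictScalars ℝ
  have hR' : HasFDerivAt (deriv F) ((fderiv ℂ (deriv F) y).restrictScalars ℝ) y :=
    h'.hasFDerivAt.restrictScalars ℝ
  have hn := hR.norm_sq
  have h1 : ‖F y‖ ^ 2 ≠ 0 := pow_ne_zero 2 (norm_ne_zero_iff.2 h0)
  have hinv : HasFDerivAt (fun x => (‖F x‖ ^ 2)⁻¹) _ y := (hasDerivAt_inv h1).comp_hasFDerivAt y hn
  have hin := (hR.inner ℝ (hR'.const_smul c)).const_mul 2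
  have hm := hinv.mul hin
  have heq : (fun x => (‖F x‖ ^ 2)⁻¹ * (2 * inner ℝ (F x) (c • deriv F x))) =
    (fun x => (‖F x‖ ^ 2)⁻¹) * fun x => 2 * inner ℝ (F x) ((c • deriv F) x) := rfl
  rw [heq, hm.fderiv]
  simp [fderiv_eq_smul_deriv, smul_smul, norm_smul]
  ring

theorem PSH_thm : PSHStmt := by
  intro n F ζ₀ r hr hF h0
  have ho : IsOpen (Metric.ball ζ₀ r) := Metric.isOpen_ball
  refine ⟨?_, ?_⟩
  · have h1 : ContDiffOn ℝ 2 F (Metric.ball ζ₀ r) := (hF.contDiffOn ho).restrict_scalars ℝ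
    exact (h1.norm_sq ℝ).log fun x hx => pow_ne_zero 2 (norm_ne_zero_iff.2 (h0 x hx))
  · intro ζ hζ
    have hF' : DifferentiableOn ℂ (deriv F) (Metric.ball ζ₀ r) := hF.deriv ho
    have hd : DifferentiableAt ℂ F ζ := hF.differentiableAt (ho.mem_nhds hζ)
    have hd' : DifferentiableAt ℂ (deriv F) ζ := hF'.differentiableAt (ho.mem_nhds hζ)
    have hc : ∀ c : ℂ, fderiv ℝ (fun y => fderiv ℝ (fun x => Real.log (‖F x‖ ^ 2)) y c) ζ c =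
        (‖F ζ‖ ^ 2)⁻¹ * (2 * (inner ℝ (F ζ) ((c * c) • deriv (deriv F) ζ) +
          ‖c‖ ^ 2 * ‖deriv F ζ‖ ^ 2)) -
        ((‖F ζ‖ ^ 2)⁻¹ * (2 * inner ℝ (F ζ) (c • deriv F ζ))) ^ 2 := by
      intro c
      rw [← psh_second F ζ c hd hd' (h0 ζ hζ)]
      have hev : (fun y => fderiv ℝ (fun x => Real.log (‖F x‖ ^ 2)) y c) =ᶠ[𝓝 ζ]
          fun x => (‖F x‖ ^ 2)⁻¹ * (2 * inner ℝ (F x) (c • deriv F x)) := by
        filter_upwards [ho.mem_nhds hζ] with y hy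
        exact psh_first F y c (hF.differentiableAt (ho.mem_nhds hy)) (h0 y hy)
      rw [hev.fderiv_eq]
    rw [hc 1, hc Complex.I]
    have hg : 0 < ‖F ζ‖ ^ 2 := pow_pos (norm_pos_iff.2 (h0 ζ hζ)) 2
    have hcs := psh_cs (F ζ) (deriv F ζ)
    rw [Complex.I_mul_I, neg_smul, one_smul, mul_one, one_smul, inner_neg_right, norm_one,
      Complex.norm_I, one_pow, one_mul]
    set g := ‖F ζ‖ ^ 2
    set a := (inner ℝ (F ζ) (deriv F ζ) : ℝ)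
    set b := (inner ℝ (F ζ) (Complex.I • deriv F ζ) : ℝ)
    set e := (inner ℝ (F ζ) (deriv (deriv F) ζ) : ℝ)
    set m := ‖deriv F ζ‖ ^ 2
    have h4 : g⁻¹ * (2 * (e + m)) - (g⁻¹ * (2 * a)) ^ 2 + (g⁻¹ * (2 * (-e + m)) - (g⁻¹ * (2 * b)) ^ 2) =
        4 * (g⁻¹) ^ 2 * (g * m - (a ^ 2 + b ^ 2)) := by
      field_simp
      ring
    rw [h4]
    have h5 : 0 ≤ g * m - (a ^ 2 + b ^ 2) := by linarith
    positivity

end Pool.CTG
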